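import Pool.Agent.H806_Gap.Weak

set_option autoImplicit false

open MeasureTheory Filter Topology

/-- **The Lebesgue part of weak limits of invariant measures, seen at one scale.** Let `A > 0`.
(1) For every continuous `f ≥ 0` and every `ε > 0` there is `δ > 0` such that for all sufficiently
small `r` and UNIFORMLY in all probability measures `μ` invariant under `x ↦ 2 x`, `x ↦ 3 x`: the
integral of `f` against `μ` is at least `μ E` times its Lebesgue integral minus `ε`, where `E` is the
set of the points `x` with `μ (B (x, r / (log (1 / r)) ^ A)) ≤ δ μ (B (x, r))`.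
(2) Consequently, let `μ n` be invariant probability measures converging weakly to `μ'`, let
`r n → 0` be scales and `δ n → 0`. If for infinitely many `n` the points `x` such that at the ONE
scale `r n` the small ball has mass at most `δ n` times the mass of the ball of radius `r n` have
`μ n`-measure at least `c`, then `μ'` is at least `c` times Lebesgue measure. -/
theorem Pool.Agent.Results.MP_e27144_an.LebesguePart.result :
    ∀ A : ℝ, 0 < A →
      (∀ f : C(UnitAddCircle, ℝ), (∀ x, 0 ≤ f x) → ∀ ε : ℝ, 0 < ε → ∃ δ : ℝ, 0 < δ ∧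
        ∃ r₀ : ℝ, 0 < r₀ ∧ ∀ r : ℝ, 0 < r → r < r₀ →
        ∀ μ : Measure UnitAddCircle, IsProbabilityMeasure μ →
          MeasurePreserving (fun x : UnitAddCircle => 2 • x) μ μ →
          MeasurePreserving (fun x : UnitAddCircle => 3 • x) μ μ →
            μ.real {x | μ.real (Metric.closedBall x (r / Real.log (1 / r) ^ A)) ≤
              δ * μ.real (Metric.closedBall x r)} * ∫ x, f x ≤ ∫ x, f x ∂μ + ε) ∧
      (∀ (μ : ℕ → Measure UnitAddCircle) (μ' : Measure UnitAddCircle),
        (∀ n, IsProbabilityMeasure (μ n)) → IsProbabilityMeasure μ' →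
        (∀ n, MeasurePreserving (fun x : UnitAddCircle => 2 • x) (μ n) (μ n)) →
        (∀ n, MeasurePreserving (fun x : UnitAddCircle => 3 • x) (μ n) (μ n)) →
        (∀ f : C(UnitAddCircle, ℝ), Tendsto (fun n => ∫ x, f x ∂(μ n)) atTop
          (𝓝 (∫ x, f x ∂μ'))) →
        ∀ r δ : ℕ → ℝ, (∀ n, 0 < r n) → Tendsto r atTop (𝓝 0) → Tendsto δ atTop (𝓝 0) →
        ∀ c : ℝ, 0 ≤ c → (∃ᶠ n in atTop, c ≤ (μ n).real
          {x | (μ n).real (Metric.closedBall x (r n / Real.log (1 / r n) ^ A)) ≤
            δ n * (μ n).real (Metric.closedBall x (r n))}) →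
        ENNReal.ofReal c • (volume : Measure UnitAddCircle) ≤ μ') := by
  intro A hA
  obtain ⟨θ, hθ, hdio⟩ := Pool.Agent.H806.Gap.dio_two_three
  obtain ⟨N, h1, h4, h5⟩ := Pool.Agent.H806.Gap.gauge_poly hθ hA
  have hirr : Irrational (Real.log (2 : ℕ) / Real.log (3 : ℕ)) :=
    Pool.Agent.W764.SH.irr_of_coprime (p := 2) (q := 3) (by norm_num) (by norm_num) (by norm_num)
  refine ⟨fun f hf ε hε => ?_, fun μ μ' hμ hμ' hip hiq hlim r δ hr0 hr hδ c hc hfreq => ?_⟩
  · obtain ⟨δ, hδ, h⟩ := Pool.Agent.H806.Gap.leb_part (p := 2) (q := 3) (by norm_num) (by norm_num)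
      hirr (tendsto_rpow_atTop hθ) hdio N h1 h4 h5 f.continuous hf hε
    rw [eventually_nhdsWithin_iff, Metric.eventually_nhds_iff] at h
    obtain ⟨r₀, hr₀, h⟩ := h
    refine ⟨δ, hδ, r₀, hr₀, fun r hr hrr => ?_⟩
    exact h (y := r) (by rw [Real.dist_eq, sub_zero, abs_of_pos hr]; exact hrr) hr
  · exact Pool.Agent.H806.Gap.leb_limit (p := 2) (q := 3) (by norm_num) (by norm_num)
      hirr (tendsto_rpow_atTop hθ) hdio N h1 h4 h5
      hμ hip hiq μ' hlim hr0 hr hδ hc hfreq
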