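import Pool.Agent.H806_Gap.Final

set_option autoImplicit false

open MeasureTheory Filter Topology

/-- **Small linear forms in typical points of a singular `×2`, `×3` invariant measure.** Let `μ` be
a Borel probability measure on the circle, invariant under `x ↦ 2 x` and `x ↦ 3 x` and singular to
Lebesgue measure. For all `k`, `M`, all `A > 0` and `ε > 0` and EVERY sufficiently small `r` there
is a closed set `G` with `μ (Gᶜ) ≤ ε` such that no integer combination
`a₁ x₁ + ... + a_k x_k` of points of `G` with `|a₁| + ... + |a_k| ≤ M` has norm (distance to zero in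
the circle) between `r / (log (1 / r)) ^ A` and `r`. -/
theorem Pool.Agent.Results.MP_e27144_an.LinearForms.result :
    ∀ μ : Measure UnitAddCircle, IsProbabilityMeasure μ →
      MeasurePreserving (fun x : UnitAddCircle => 2 • x) μ μ →
      MeasurePreserving (fun x : UnitAddCircle => 3 • x) μ μ → μ ⟂ₘ volume →
      ∀ (k M : ℕ) (A ε : ℝ), 0 < A → 0 < ε → ∃ r₀ : ℝ, 0 < r₀ ∧ ∀ r : ℝ, 0 < r → r < r₀ →
        ∃ G : Set UnitAddCircle, IsClosed G ∧ μ.real Gᶜ ≤ ε ∧
          ∀ x : Fin k → UnitAddCircle, (∀ i, x i ∈ G) → ∀ a : Fin k → ℤ, ∑ i, |a i| ≤ M →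
            ‖∑ i, a i • x i‖ ≤ r → ‖∑ i, a i • x i‖ < r / Real.log (1 / r) ^ A := by
  intro μ hμ h2 h3 hs k M A ε hA hε
  obtain ⟨θ, hθ, hdio⟩ := Pool.Agent.H806.Gap.dio_two_three
  obtain ⟨n, h1, h4, h5⟩ := Pool.Agent.H806.Gap.gauge_poly hθ hA
  exact Pool.Agent.H806.Gap.lin_gauge (p := 2) (q := 3) (by norm_num) (by norm_num)
    (by norm_num) (tendsto_rpow_atTop hθ) hdio n h1 h4 h5 μ h2 h3 hs k M hε
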