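import Pool.Agent.H806_Gap.Final

set_option autoImplicit false

open MeasureTheory Filter Topology

/-- **The local mass formula for the `×2`, `×3` invariant measures.** Let `μ` be any Borel
probability measure on the circle which is invariant under `x ↦ 2 x` and `x ↦ 3 x`; no entropy
assumption, no ergodicity, atoms are allowed.
(1) For every `A > 0` the `μ`-mean of the ratio `μ (B (x, r / (log (1 / r)) ^ A)) / μ (B (x, r))`
converges, as `r → 0`, to the mass of the Lebesgue-singular part of `μ`.
(2) This limit is `0` exactly when `μ` is Lebesgue measure.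
(3) It is `1` for all jointly ergodic `μ` other than Lebesgue measure: at EVERY small scale `r` most
points `x` have almost all the mass of the ball `B (x, r)` within `r / (log (1 / r)) ^ A` of `x`. -/
theorem Pool.Agent.Results.MP_e27144_an.LocalMass.result :
    ∀ μ : Measure UnitAddCircle, IsProbabilityMeasure μ →
      MeasurePreserving (fun x : UnitAddCircle => 2 • x) μ μ →
      MeasurePreserving (fun x : UnitAddCircle => 3 • x) μ μ →
        (∀ A : ℝ, 0 < A → Tendsto (fun r : ℝ => ∫ x,
            μ.real (Metric.closedBall x (r / Real.log (1 / r) ^ A)) /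
              μ.real (Metric.closedBall x r) ∂μ)
          (𝓝[>] 0) (𝓝 ((μ.singularPart volume).real Set.univ))) ∧
        ((μ.singularPart volume).real Set.univ = 0 ↔ μ = volume) ∧
        ((∀ E : Set UnitAddCircle, MeasurableSet E →
            (fun x : UnitAddCircle => 2 • x) ⁻¹' E = E →
            (fun x : UnitAddCircle => 3 • x) ⁻¹' E = E → μ E = 0 ∨ μ E = 1) → μ ≠ volume →
          (μ.singularPart volume).real Set.univ = 1) := by
  intro μ hμ h2 h3
  refine ⟨fun A hA => ?_, ?_, fun herg hne => ?_⟩
  · obtain ⟨θ, hθ, hdio⟩ := Pool.Agent.H806.Gap.dio_two_three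
    obtain ⟨n, h1, h4, h5⟩ := Pool.Agent.H806.Gap.gauge_poly hθ hA
    exact Pool.Agent.H806.Gap.local_mass (p := 2) (q := 3) (by norm_num) (by norm_num)
      (by norm_num) (tendsto_rpow_atTop hθ) hdio n h1 h4 h5 μ h2 h3
  · exact Pool.Agent.H806.Gap.sing_zero (p := 2) (q := 3) (by norm_num) (by norm_num)
      (by norm_num) μ h2 h3
  · exact Pool.Agent.H806.Gap.sing_one (p := 2) (q := 3) (by norm_num) (by norm_num)
      (by norm_num) μ h2 h3 herg hne
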