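import Pool.Agent.H806_Gap.Weak

set_option autoImplicit false

open MeasureTheory Filter Topology

/-- **The one scale inequality and the one scale criterion of equidistribution.** Let `A > 0`.
(1) For every integer `m ≠ 0` and every `ε > 0`, for all sufficiently small `r` and UNIFORMLY in all
probability measures `μ` invariant under `x ↦ 2 x`, `x ↦ 3 x` (periodic orbits, for instance), the
square of the modulus of the Fourier coefficient of `μ` at `m` is at most `ε` plus the `μ`-mean of
the ratio `μ (B (x, r / (log (1 / r)) ^ A)) / μ (B (x, r))`, at this ONE scale `r`.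
(2) Consequently, if `μ n` are invariant probability measures and `r n → 0` are scales such that the
mean ratio of `μ n` at the scale `r n` tends to `0`, then `μ n` converges weakly to Lebesgue
measure. For a constant sequence this contains the theorem of Rudolph and Johnson. -/
theorem Pool.Agent.Results.MP_e27144_an.OneScale.result :
    ∀ A : ℝ, 0 < A →
      (∀ m : ℤ, m ≠ 0 → ∀ ε : ℝ, 0 < ε → ∃ r₀ : ℝ, 0 < r₀ ∧ ∀ r : ℝ, 0 < r → r < r₀ →
        ∀ μ : Measure UnitAddCircle, IsProbabilityMeasure μ →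
          MeasurePreserving (fun x : UnitAddCircle => 2 • x) μ μ →
          MeasurePreserving (fun x : UnitAddCircle => 3 • x) μ μ →
            ‖∫ x, (fourier m x : ℂ) ∂μ‖ ^ 2 ≤
              ∫ x, μ.real (Metric.closedBall x (r / Real.log (1 / r) ^ A)) /
                μ.real (Metric.closedBall x r) ∂μ + ε) ∧
      (∀ (μ : ℕ → Measure UnitAddCircle) (r : ℕ → ℝ), (∀ n, IsProbabilityMeasure (μ n)) →
        (∀ n, MeasurePreserving (fun x : UnitAddCircle => 2 • x) (μ n) (μ n)) →
        (∀ n, MeasurePreserving (fun x : UnitAddCircle => 3 • x) (μ n) (μ n)) →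
        (∀ n, 0 < r n) → Tendsto r atTop (𝓝 0) →
        Tendsto (fun n => ∫ x,
          (μ n).real (Metric.closedBall x (r n / Real.log (1 / r n) ^ A)) /
            (μ n).real (Metric.closedBall x (r n)) ∂(μ n)) atTop (𝓝 0) →
        ∀ f : C(UnitAddCircle, ℝ), Tendsto (fun n => ∫ x, f x ∂(μ n)) atTop (𝓝 (∫ x, f x))) := by
  intro A hA
  obtain ⟨θ, hθ, hdio⟩ := Pool.Agent.H806.Gap.dio_two_three
  obtain ⟨N, h1, h4, h5⟩ := Pool.Agent.H806.Gap.gauge_poly hθ hA
  have hirr : Irrational (Real.log (2 : ℕ) / Real.log (3 : ℕ)) :=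
    Pool.Agent.W764.SH.irr_of_coprime (p := 2) (q := 3) (by norm_num) (by norm_num) (by norm_num)
  refine ⟨fun m hm ε hε => ?_, fun μ r hμ hip hiq hr0 hr ht f => ?_⟩
  · have h := Pool.Agent.H806.Gap.fourier_scale (p := 2) (q := 3) (by norm_num) (by norm_num)
      hirr (tendsto_rpow_atTop hθ) hdio N h1 h4 h5 hm hε
    rw [eventually_nhdsWithin_iff, Metric.eventually_nhds_iff] at h
    obtain ⟨r₀, hr₀, h⟩ := h
    refine ⟨r₀, hr₀, fun r hr hrr => ?_⟩
    exact h (y := r) (by rw [Real.dist_eq, sub_zero, abs_of_pos hr]; exact hrr) hr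
  · exact Pool.Agent.H806.Gap.weak_of_ratio (p := 2) (q := 3) (by norm_num) (by norm_num)
      hirr (tendsto_rpow_atTop hθ) hdio N h1 h4 h5
      hμ hip hiq hr0 hr ht f
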